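import Pool.Agent.Work.MP_ce2d68_du.Interface

set_option autoImplicit false

open Polynomial Filter Topology
open scoped ComplexConjugate

namespace Pool.Agent.Work.MP_ce2d68_du.h51

open Pool.Agent.Work.MP_ce2d68_st Pool.Agent.Work.MP_ce2d68_du

theorem dvd_of_ev_eq_zero {F Q : ℤ[X]} (hm : F.Monic) (hi : Irreducible F) {a : ℂ} (ha : ev F a = 0)
    (hQ : ev Q a = 0) : F ∣ Q := by
  have e1 : ∀ R : ℤ[X], ev R a = aeval a R := by
    intro R
    simp [ev, cp, eval_map, aeval_def]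
  rw [e1] at ha hQ
  have hint : IsIntegral ℤ a := ⟨F, hm, by rwa [aeval_def] at ha⟩
  have h1 : minpoly ℤ a ∣ F := minpoly.isIntegrallyClosed_dvd hint ha
  have h2 : minpoly ℤ a ∣ Q := minpoly.isIntegrallyClosed_dvd hint hQ
  have h3 : ¬ IsUnit (minpoly ℤ a) := minpoly.not_isUnit ℤ a
  have h4 : F ∣ minpoly ℤ a := by
    rcases (hi.dvd_iff.1 h1) with h | h
    · exact absurd h h3
    · exact h.dvd
  exact h4.trans h2

theorem p_WEAK (hB : Stmt_BAS) (hR : Stmt_RES) : Stmt_WEAK := by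
  intro θ v x hv hC hA
  obtain ⟨n, Q, hn, hQ, hC⟩ := hC
  refine le_of_forall_pos_le_add fun ε hε => ?_
  obtain ⟨F, hF, hD, hl⟩ := hA ε hε (Q.natDegree + 1)
  refine le_trans ?_ hl
  obtain ⟨hm, hi, -, hs, -⟩ := hF
  obtain ⟨hd, hfac, hcard, -, hM⟩ := hB F hm hi
  have hroot : ∀ a ∈ rts F, ev F a = 0 := by
    intro a ha
    have h1 : ev F a = (∏ b ∈ rts F, (X - C b)).eval a := by rw [ev, hfac]
    rw [h1, eval_prod]
    exact Finset.prod_eq_zero ha (by simp)
  have hne : ∀ a ∈ rts F, ev Q a ≠ 0 := by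
    intro a ha h0
    have h1 := dvd_of_ev_eq_zero hm hi (hroot a ha) h0
    have h2 := natDegree_le_of_dvd h1 hQ
    omega
  have h1 := hR F Q hm hi hne
  have h2 : v ^ (n * F.natDegree) ≤ (∏ a ∈ rts F, max 1 ‖a‖) ^ n := by
    have h3 : ∏ a ∈ rts F, (v ^ n * ‖ev Q a‖) ≤ ∏ a ∈ rts F, (max 1 ‖a‖) ^ n :=
      Finset.prod_le_prod (fun a _ => by positivity) (fun a ha => hC a (hs a ha))
    rw [Finset.prod_mul_distrib, Finset.prod_const, hcard, Finset.prod_pow, ← pow_mul] at h3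
    refine le_trans ?_ h3
    exact le_mul_of_one_le_right (by positivity) h1
  have h3 := Real.log_le_log (by positivity) h2
  rw [Real.log_pow, Real.log_pow, Real.log_prod (fun a _ => by positivity)] at h3
  have h4 : ∑ a ∈ rts F, Real.log (max 1 ‖a‖) = Real.log (MM F) := by
    rw [hM]
    exact Finset.sum_congr rfl fun a _ => (Real.posLog_eq_log_max_one (norm_nonneg a)).symm
  rw [h4] at h3
  have hn' : (0 : ℝ) < n := by exact_mod_cast hn
  have hd' : (0 : ℝ) < F.natDegree := by exact_mod_cast hd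
  rw [lv, le_div_iff₀ hd']
  push_cast at h3
  nlinarith

end Pool.Agent.Work.MP_ce2d68_du.h51
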